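import Mathlib

/-!
# Lamplighter groups over nonabelian finite groups are not automaton groups

For a finite nonabelian group `Y` the restricted wreath product `Y ≀ ℤ` does not embed in any
group of length preserving permutations of the set of words over a finite alphabet.  This
answers both questions of the problem in the negative, for every nonabelian `Y`.
-/

namespace Pool.Agent.Results.MP_e17fb9_al.NonabelianLamplighter

/-- The map on words defined at the state `a_i` of the automaton `A_Y`: it fixes the empty word
and sends `j w` to `(i j) a_{j⁻¹ i}(w)`. -/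
def stateMap {Y : Type} [Group Y] : Y → List Y → List Y
  | _, [] => []
  | i, j :: w => (i * j) :: stateMap (j⁻¹ * i) w

/-- The group generated by the bijections `a_i` of the set of words, under composition. -/
def GY (Y : Type) [Group Y] : Subgroup (Equiv.Perm (List Y)) :=
  Subgroup.closure {f | ∃ i : Y, ∀ w, f w = stateMap i w}

/-- The map on words defined at a state of an automaton with transition map `δ` and output
map `μ`. -/
def run {Q Y : Type} (δ : Q → Y → Q) (μ : Q → Y → Y) : Q → List Y → List Y
  | _, [] => []
  | q, x :: w => μ q x :: run δ μ (δ q x) w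

/-- `f` belongs to the finite state wreath power `W_Y` of the regular group `Y`: it is the map
defined at a state of a finite automaton over the alphabet `Y` all of whose output maps are left
multiplications. -/
def InW {Y : Type} [Group Y] (f : List Y → List Y) : Prop :=
  ∃ (Q : Type) (_ : Finite Q) (δ : Q → Y → Q) (μ : Q → Y → Y) (q : Q),
    (∀ p, ∃ g : Y, ∀ x, μ p x = g * x) ∧ f = run δ μ q

/-- The direct sum of copies of `Y` indexed by the integers: the functions from `ℤ` to `Y` with
finitely many nontrivial values. -/
def Base (Y : Type) [Group Y] : Subgroup (ℤ → Y) where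
  carrier := {f | {n | f n ≠ 1}.Finite}
  one_mem' := by simp
  mul_mem' := by
    intro a b ha hb
    refine (Set.Finite.union ha hb).subset ?_
    intro n hn
    by_contra hcon
    have h1 : a n = 1 := by
      by_contra h; exact hcon (Or.inl h)
    have h2 : b n = 1 := by
      by_contra h; exact hcon (Or.inr h)
    exact hn (by rw [Pi.mul_apply, h1, h2, mul_one])
  inv_mem' := by
    intro a ha
    refine Set.Finite.subset ha ?_
    intro n hn
    simpa using hn

/-- The shift of coordinates by `k`. -/
def shift (Y : Type) [Group Y] (k : ℤ) : Base Y ≃* Base Y where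
  toFun f := ⟨fun n => f.1 (n - k), by
    have h := f.2
    have : {n | f.1 (n - k) ≠ 1} = (fun n => n - k) ⁻¹' {n | f.1 n ≠ 1} := rfl
    refine Set.Finite.preimage ?_ h
    intro a _ b _ hab
    simpa using hab⟩
  invFun f := ⟨fun n => f.1 (n + k), by
    have h := f.2
    have : {n | f.1 (n + k) ≠ 1} = (fun n => n + k) ⁻¹' {n | f.1 n ≠ 1} := rfl
    refine Set.Finite.preimage ?_ h
    intro a _ b _ hab
    simpa using hab⟩
  left_inv f := by
    apply Subtype.ext; funext n; simp
  right_inv f := by
    apply Subtype.ext; funext n; simp
  map_mul' f g := by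
    apply Subtype.ext; funext n; simp

/-- The action of `ℤ` on the direct sum by shifting coordinates. -/
def shiftHom (Y : Type) [Group Y] : Multiplicative ℤ →* MulAut (Base Y) where
  toFun k := shift Y k.toAdd
  map_one' := by
    ext f : 1
    apply Subtype.ext; funext n; simp [shift]
  map_mul' a b := by
    ext f : 1
    apply Subtype.ext; funext n
    show f.1 (n - (a * b).toAdd) = f.1 ((n - a.toAdd) - b.toAdd)
    rw [toAdd_mul, sub_sub]

/-- The lamplighter group, i.e. the restricted wreath product of `Y` and `ℤ`. -/
abbrev Lamp (Y : Type) [Group Y] : Type := Base Y ⋊[shiftHom Y] Multiplicative ℤ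

/-! ### Proof -/

lemma run_length {Q Y : Type} (δ : Q → Y → Q) (μ : Q → Y → Y) (w : List Y) :
    ∀ q, (run δ μ q w).length = w.length := by
  induction w with
  | nil => intro q; rfl
  | cons x w ih => intro q; simp [run, ih]

lemma stateMap_length {Y : Type} [Group Y] (w : List Y) :
    ∀ i : Y, (stateMap i w).length = w.length := by
  induction w with
  | nil => intro q; rfl
  | cons x w ih => intro q; simp [stateMap, ih]

/-- The element `y` at coordinate `k`. -/
def lampAt {Y : Type} [Group Y] (k : ℤ) (y : Y) : Base Y :=
  ⟨Pi.mulSingle k y, by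
    refine (Set.finite_singleton k).subset ?_
    intro n hn
    by_contra h
    exact hn (Pi.mulSingle_eq_of_ne (M := fun _ : ℤ => Y) h y)⟩

lemma key {Y : Type} [Group Y] [Finite Y] (φ : Lamp Y →* Equiv.Perm (List Y))
    (hφ : Function.Injective φ) (hlen : ∀ x w, (φ x w).length = w.length) (a b : Y) :
    a * b = b * a := by
  classical
  -- the shift
  set t : Lamp Y := SemidirectProduct.inr (Multiplicative.ofAdd (1 : ℤ)) with ht
  set A : Lamp Y := SemidirectProduct.inl (lampAt 0 a) with hA
  set B : Lamp Y := SemidirectProduct.inl (lampAt 0 b) with hB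
  have hcomm : A * B = B * A := by
    apply hφ
    ext1 w
    -- restrict to words of the length of `w`
    let L := {u : List Y // u.length = w.length}
    have : Finite L := List.finite_length_eq Y w.length
    let T : Equiv.Perm L := (φ t).subtypePerm (fun u => by rw [hlen])
    obtain ⟨k, hk, hTk⟩ : ∃ k : ℕ, 0 < k ∧ T ^ k = 1 :=
      ⟨orderOf T, orderOf_pos T, pow_orderOf_eq_one T⟩
    have hTk' : ∀ u : List Y, u.length = w.length → φ (t ^ k) u = u := by
      intro u hu
      have h1 : ((T ^ k) ⟨u, hu⟩ : L).1 = u := by rw [hTk]; rfl
      have h2 : ∀ m : ℕ, ((T ^ m) ⟨u, hu⟩ : L).1 = ((φ t) ^ m) u := by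
        intro m
        induction m with
        | zero => rfl
        | succ m ih =>
          rw [pow_succ', pow_succ', Equiv.Perm.mul_apply, Equiv.Perm.mul_apply, ← ih]
          rfl
      rw [map_pow, ← h2 k, h1]
    -- the translate of `A`
    set A' : Lamp Y := t ^ k * A * (t ^ k)⁻¹ with hA'
    have hA'B : A' * B = B * A' := by
      have htk : t ^ k = SemidirectProduct.inr (Multiplicative.ofAdd (k : ℤ)) := by
        rw [ht, ← map_pow, ← ofAdd_nsmul]
        simp
      have h3 : A' = SemidirectProduct.inl (shiftHom Y (Multiplicative.ofAdd (k : ℤ))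
          (lampAt 0 a)) := by
        rw [hA', htk, hA, SemidirectProduct.inl_aut]
        simp
      rw [h3, hB, ← map_mul, ← map_mul]
      congr 1
      apply Subtype.ext
      funext n
      have hkz : (k : ℤ) ≠ 0 := by exact_mod_cast hk.ne'
      by_cases hn : n = 0
      · subst hn
        have : (-(k : ℤ)) ≠ 0 := by simpa using hkz
        simp [shiftHom, shift, lampAt, Pi.mulSingle_eq_of_ne this]
      · simp [shiftHom, shift, lampAt, Pi.mulSingle_eq_of_ne hn]
    have hAA' : ∀ u : List Y, u.length = w.length → φ A' u = φ A u := by
      intro u hu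
      have h4 : φ (t ^ k)⁻¹ u = u := by
        rw [map_inv, Equiv.Perm.inv_eq_iff_eq]
        exact (hTk' u hu).symm
      rw [hA', map_mul, map_mul, Equiv.Perm.mul_apply, Equiv.Perm.mul_apply, h4]
      exact hTk' _ (by rw [hlen]; exact hu)
    have h5 : φ (A' * B) w = φ (B * A') w := by rw [hA'B]
    clear_value A'
    rw [map_mul, map_mul, Equiv.Perm.mul_apply, Equiv.Perm.mul_apply] at h5
    rw [hAA' _ (by rw [hlen]), hAA' w rfl] at h5
    rw [map_mul, map_mul, Equiv.Perm.mul_apply, Equiv.Perm.mul_apply]
    exact h5
  rw [hA, hB, ← map_mul, ← map_mul] at hcomm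
  have h6 := SemidirectProduct.inl_injective hcomm
  have h7 := congrArg (fun f : Base Y => f.1 0) h6
  simpa [lampAt] using h7

/-- Every map defined at a state `a_i` is a bijection, so the generating set in `GY` is not
empty and consists of exactly these bijections. -/
theorem stateMap_bijective {Y : Type} [Group Y] (i : Y) :
    Function.Bijective (stateMap i) := by
  constructor
  · intro u
    induction u generalizing i with
    | nil =>
      intro v h
      cases v with
      | nil => rfl
      | cons y v => simp [stateMap] at h
    | cons x u ih =>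
      intro v h
      cases v with
      | nil => simp [stateMap] at h
      | cons y v =>
        simp only [stateMap, List.cons.injEq, mul_right_inj] at h
        obtain ⟨h1, h2⟩ := h
        subst h1
        rw [ih _ h2]
  · intro v
    induction v generalizing i with
    | nil => exact ⟨[], rfl⟩
    | cons y v ih =>
      obtain ⟨u, hu⟩ := ih ((i⁻¹ * y)⁻¹ * i)
      refine ⟨(i⁻¹ * y) :: u, ?_⟩
      rw [stateMap, hu, mul_inv_cancel_left]

/-- For every finite nonabelian group `Y`, the group generated by the automaton `A_Y` is not
isomorphic to the lamplighter group of `Y`, and the finite state wreath power `W_Y` contains no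
subgroup isomorphic to it. -/
theorem result (Y : Type) [Group Y] [Finite Y] (hY : ∃ a b : Y, a * b ≠ b * a) :
    (∀ i : Y, ∃ f : Equiv.Perm (List Y), f ∈ GY Y ∧ ∀ w, f w = stateMap i w) ∧
    IsEmpty (GY Y ≃* Lamp Y) ∧
    ¬ ∃ φ : Lamp Y →* Equiv.Perm (List Y),
        Function.Injective φ ∧ ∀ x, InW (φ x : List Y → List Y) := by
  obtain ⟨a, b, hab⟩ := hY
  refine ⟨?_, ⟨?_⟩, ?_⟩
  · intro i
    refine ⟨Equiv.ofBijective _ (stateMap_bijective i), ?_, fun w => rfl⟩
    exact Subgroup.subset_closure ⟨i, fun w => rfl⟩
  · intro e
    apply hab
    let φ : Lamp Y →* Equiv.Perm (List Y) := (GY Y).subtype.comp e.symm.toMonoidHom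
    refine key φ ?_ ?_ a b
    · exact (Subtype.val_injective).comp e.symm.injective
    · intro x
      have hx : φ x ∈ GY Y := (e.symm x).2
      have hall : ∀ f ∈ GY Y, ∀ w : List Y, (f w).length = w.length := by
        intro f hf
        refine Subgroup.closure_induction (p := fun f _ => ∀ w : List Y, (f w).length = w.length)
          ?_ ?_ ?_ ?_ hf
        · rintro g ⟨i, hi⟩ w
          rw [hi, stateMap_length]
        · intro w; rfl
        · intro g h _ _ hg hh w
          rw [Equiv.Perm.mul_apply, hg, hh]
        · intro g _ hg w
          have := hg (g⁻¹ w)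
          rw [show g (g⁻¹ w) = w from g.apply_symm_apply w] at this
          exact this.symm
      exact hall _ hx
  · rintro ⟨φ, hφ, hW⟩
    apply hab
    refine key φ hφ ?_ a b
    intro x w
    obtain ⟨Q, _, δ, μ, q, _, hq⟩ := hW x
    rw [hq, run_length]

end Pool.Agent.Results.MP_e17fb9_al.NonabelianLamplighter
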